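import Pool.Agent.H66.L.S8.R773.FC.Main
import Pool.Agent.H66.L.S8.Y504.CO.SS

/-!
# Final forms
-/

set_option autoImplicit false
set_option linter.unusedSectionVars false

open scoped Manifold ContDiff Topology
open Filter Set Metric

universe u v

namespace Pool.Agent.R773.FC

open Pool.Agent.H718R2.G Pool.Agent.W564.SC
open Pool.Agent.H922R3.CL (IsHypLin)

variable {n : ℕ} {N : Type u} [TopologicalSpace N] [T2Space N] [CompactSpace N]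
  [ChartedSpace (V n) N] [IsManifold (𝓡 n) ∞ N]
  {B : Type v} [MetricSpace B] [CompactSpace B]
  {W : Type} [NormedAddCommGroup W] [NormedSpace ℝ W] [FiniteDimensional ℝ W]
  {Λ : AddSubgroup W} [DiscreteTopology Λ] [IsClosed (Λ : Set W)]

theorem semi_bar {A : W ≃L[ℝ] W} (hA : ∀ u, u ∈ Λ ↔ A u ∈ Λ) {f : B → B}
    {φ ψ : B × (W ⧸ Λ) → W} {T : B × (W ⧸ Λ) → B × (W ⧸ Λ)} (hT : Skew A Λ f φ T)
    (hψ : ∀ p, ψ (T p) + φ p = A (ψ p)) (p : B × (W ⧸ Λ)) :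
    semi ψ (T p) = bar A hA (semi ψ p) := by
  obtain ⟨b, y⟩ := p
  obtain ⟨z, rfl⟩ := QuotientAddGroup.mk_surjective y
  have h1 := semi_T hT hψ 1 b z
  have h0 := semi_T hT hψ 0 b z
  simp only [Function.iterate_one, Function.iterate_zero, id] at h1 h0
  rw [h1, h0, bar_mk]

theorem psi_unique [CompactSpace (W ⧸ Λ)] {A : W ≃L[ℝ] W} (hL : IsHypLin A)
    (T : (B × (W ⧸ Λ)) ≃ₜ (B × (W ⧸ Λ))) {φ ψ ψ' : B × (W ⧸ Λ) → W}
    (hψc : Continuous ψ) (hψ : ∀ p, ψ (T p) + φ p = A (ψ p))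
    (hψc' : Continuous ψ') (hψ' : ∀ p, ψ' (T p) + φ p = A (ψ' p)) : ψ' = ψ := by
  obtain ⟨M, -, hM⟩ := exists_bd (hψc'.sub hψc)
  funext p
  have h := zero_of_equiv hL T.toEquiv (fun p => ψ' p - ψ p) (fun p => by
    show ψ' (T p) - ψ (T p) = A (ψ' p - ψ p)
    rw [map_sub, ← hψ, ← hψ']
    abel) hM p
  exact sub_eq_zero.1 h

/-- The closing theorem: closability (with a prescribed periodic point, and by perturbations with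
small support). -/
theorem closing [Nontrivial W] (hC : ∃ C : ℝ, ∀ z : W, ∃ u ∈ Λ, ‖z - u‖ ≤ C) {r : ℕ∞}
    (hr : 1 ≤ r) (F : DiffM n N r) {A : W ≃L[ℝ] W} (hL : IsHypLin A)
    (hA : ∀ u, u ∈ Λ ↔ A u ∈ Λ) (f : B ≃ₜ B) {φ : B × (W ⧸ Λ) → W} (hφ : Continuous φ)
    (T : (B × (W ⧸ Λ)) ≃ₜ (B × (W ⧸ Λ))) (hT : Skew A Λ f φ T)
    {Θ : B × (W ⧸ Λ) → N} (hΘ : Topology.IsEmbedding Θ) (hF : ∀ p, F (Θ p) = Θ (T p)) :
    ∃ ψ : B × (W ⧸ Λ) → W, (Continuous ψ ∧ ∀ p, ψ (T p) + φ p = A (ψ p)) ∧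
      (∀ ψ' : B × (W ⧸ Λ) → W, Continuous ψ' → (∀ p, ψ' (T p) + φ p = A (ψ' p)) → ψ' = ψ) ∧
      (∀ p, semi ψ (T p) = bar A hA (semi ψ p)) ∧
      ∀ b : B, NonWand f b → ∀ u : W ⧸ Λ, ∃ y : W ⧸ Λ, semi ψ (b, y) = u ∧
        Closable n N r F (Θ (b, y)) ∧ LClosable n N r F (Θ (b, y)) := by
  have hcomp : CompactSpace (W ⧸ Λ) := Pool.Agent.W806.SC.comp hC
  obtain ⟨ψ, hψc, hψ⟩ := exists_psi hL T φ hφ
  refine ⟨ψ, ⟨hψc, hψ⟩, fun ψ' h1 h2 => psi_unique hL T hψc hψ h1 h2,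
    semi_bar hA hT hψ, fun b hb u => ?_⟩
  obtain ⟨y, hy, hret⟩ := stepB hC F hL hA f T.continuous hT hψc hψ hΘ hF hb u
  obtain ⟨χ, hχ⟩ := Pool.Agent.W699.SC.gc n N (Θ (b, y))
  exact ⟨y, hy, closable_of_ret hr F hχ (hret χ hχ), lclosable_of_ret hr F hχ (hret χ hχ)⟩

open Pool.Agent.TH80.OMS in
/-- The base of an `Ω`-stable skew product. -/
theorem base_closure {r : ℕ∞} (F : DiffM n N r) {A : W ≃L[ℝ] W} (f : B ≃ₜ B)
    {φ : B × (W ⧸ Λ) → W} {T : B × (W ⧸ Λ) → B × (W ⧸ Λ)} (hT : Skew A Λ f φ T)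
    {Θ : B × (W ⧸ Λ) → N} (hΘ : Topology.IsEmbedding Θ) (hF : ∀ p, F (Θ p) = Θ (T p))
    (hs : Function.Surjective Θ) {b : B} {y : W ⧸ Λ} (hy : Θ (b, y) ∈ closure (Per F)) :
    b ∈ closure {b | IsPer f b} := by
  rw [_root_.mem_closure_iff] at hy ⊢
  intro O hO hbO
  have h1 : IsOpen (Prod.fst ⁻¹' O : Set (B × (W ⧸ Λ))) := hO.preimage continuous_fst
  obtain ⟨O', hO', hO''⟩ := hΘ.isOpen_iff.1 h1
  have h2 : Θ (b, y) ∈ O' := by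
    have : (b, y) ∈ Θ ⁻¹' O' := by rw [hO'']; exact hbO
    exact this
  obtain ⟨z, hz, m, hm, hmz⟩ := hy O' hO' h2
  obtain ⟨⟨b', y'⟩, rfl⟩ := hs z
  refine ⟨b', ?_, m, hm, ?_⟩
  · have : (b', y') ∈ Θ ⁻¹' O' := hz
    rw [hO''] at this
    exact this
  · rw [iter_Θ' hF] at hmz
    have h3 := congrArg Prod.fst (hΘ.injective hmz)
    rw [fst_iter hT] at h3
    exact h3

end Pool.Agent.R773.FC
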