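import Pool.Agent.H66.L.S8.W564.SC.Lib
import Pool.Agent.H66.L.S8.Y504.CO.Asm

/-!
# Closing by perturbations supported near the point, and `Ω`-stability
-/

set_option autoImplicit false
set_option linter.unusedSectionVars false

open scoped Manifold ContDiff Topology
open Filter Set Metric

universe u

namespace Pool.Agent.R773.FC

open Pool.Agent.H718R2.G Pool.Agent.W564.SC

/-- `z` can be closed by perturbations supported near `z`: for all neighbourhoods `U` of `F` and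
`O` of `z` there is a `G ∈ U` with a periodic point in `O` such that `G = F` outside of
`F⁻¹(O)`. -/
def LClosable (n : ℕ) (N : Type*) [TopologicalSpace N] [ChartedSpace (V n) N] (r : ℕ∞)
    (F : DiffM n N r) (z : N) : Prop :=
  ∀ U : Set (DiffM n N r), IsOpen[strongTop n N r] U → F ∈ U → ∀ O : Set N, IsOpen O → z ∈ O →
    ∃ G ∈ U, ∃ z' ∈ O, IsPer G z' ∧ ∀ y, F y ∉ O → G y = F y

/-- Near the centre of the chart `χ` there are orbit segments which nearly close up, without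
intermediate returns. -/
def RetK (n : ℕ) {N : Type*} [TopologicalSpace N] (F : N → N)
    (χ : OpenPartialHomeomorph N (V n)) (k : ℕ) : Prop :=
  ∀ κ : ℝ, 0 < κ → ∃ (z' : N) (ρ : ℝ) (m : ℕ), z' ∈ χ.source ∧ ‖χ z'‖ < κ ∧ 0 < ρ ∧
    ρ < κ ∧ 1 ≤ m ∧ F^[m] z' ∈ χ.source ∧ ‖χ (F^[m] z') - χ z'‖ < κ * ρ ^ k ∧
    ∀ i, 0 < i → i < m → F^[i] z' ∈ χ.source → 2 * ρ ≤ ‖χ (F^[i] z') - χ z'‖

/-- Near the centre of the chart `χ` there are orbit segments which nearly close up, without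
intermediate returns. -/
def Ret (n : ℕ) {N : Type*} [TopologicalSpace N] (F : N → N)
    (χ : OpenPartialHomeomorph N (V n)) : Prop :=
  ∀ (k : ℕ) (κ : ℝ), 0 < κ → ∃ (z' : N) (ρ : ℝ) (m : ℕ), z' ∈ χ.source ∧ ‖χ z'‖ < κ ∧ 0 < ρ ∧
    ρ < κ ∧ 1 ≤ m ∧ F^[m] z' ∈ χ.source ∧ ‖χ (F^[m] z') - χ z'‖ < κ * ρ ^ k ∧
    ∀ i, 0 < i → i < m → F^[i] z' ∈ χ.source → 2 * ρ ≤ ‖χ (F^[i] z') - χ z'‖

lemma small_shift {n k : ℕ} {c ρ : ℝ} {u : V n → V n} (h : Small n k c u)
    (h0 : ∀ x, 2 * ρ ≤ ‖x‖ → u x = 0) {v : V n} (hv : ‖v‖ + 2 * ρ ≤ 1 / 2) :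
    Small n k c (fun x => u (x - v)) where
  smooth := h.smooth.comp (contDiff_id.sub contDiff_const)
  supp := by
    intro x hx
    apply h0
    have := norm_sub_norm_le x v
    linarith
  bd := by
    intro j hj x
    rw [iteratedFDeriv_comp_sub]
    exact h.bd j hj _

lemma small_mono {n k k' : ℕ} {κ κ' : ℝ} {f : V n → V n} (h : Small n k κ f) (hk : k' ≤ k)
    (hκ : κ ≤ κ') : Small n k' κ' f where
  smooth := h.smooth
  supp := h.supp
  bd j hj x := (h.bd j (hj.trans hk) x).trans hκ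

section

variable {n : ℕ} {N : Type u} [TopologicalSpace N] [T2Space N] [CompactSpace N]
  [ChartedSpace (V n) N] [IsManifold (𝓡 n) ∞ N]

theorem isFam_const {r : ℕ∞} (F : DiffM n N r) : IsFam n N r (fun _ : ℝ => F) := by
  intro y
  exact F.contMDiff.contMDiffAt.comp _ contMDiffAt_snd

theorem closable_of_ret {r : ℕ∞} (hr : 1 ≤ r) (F : DiffM n N r)
    {χ : OpenPartialHomeomorph N (V n)} {z : N} (hχ : GoodChart n N χ z) (h : Ret n F χ) :
    Closable n N r F z := by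
  intro U hU hFU
  obtain ⟨k, hk, κ, hκ, hcl⟩ := t_CL n N r hr ℝ (fun _ => F) (isFam_const F) χ z hχ U hU hFU
  obtain ⟨z', ρ, m, h1, h2, h3, h4, h5, h6, h7, h8⟩ := h k κ hκ
  exact hcl 0 z' ρ m (by rw [norm_zero]; exact hκ) h1 h2 h3 h4 h5 h6 h7 h8

theorem lclosable_of_retK {r : ℕ∞} (hr : 1 ≤ r) (F : DiffM n N r)
    {χ : OpenPartialHomeomorph N (V n)} {z : N} (hχ : GoodChart n N χ z)
    (h : ∀ k : ℕ, 1 ≤ k → (k : ℕ∞) ≤ r → RetK n F χ k) : LClosable n N r F z := by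
  intro U hU hFU O hO hzO
  obtain ⟨k, hk1, hkr, κ₀, hκ₀, hN⟩ := t_NBHD n N r hr ℝ (fun _ => F) (isFam_const F) χ z hχ U hU
    hFU
  obtain ⟨C, hC, hB⟩ := Pool.Agent.W271.SC.bump n k hk1
  -- a small ball in the chart is contained in `O`
  obtain ⟨κ₁, hκ₁, hO1⟩ : ∃ κ₁ : ℝ, 0 < κ₁ ∧ ∀ y ∈ χ.source, ‖χ y‖ < κ₁ → y ∈ O := by
    have h0 : (0 : V n) ∈ χ.target := by
      rw [← hχ.zero]
      exact χ.map_source hχ.src
    have hc : ContinuousAt χ.symm 0 := χ.continuousAt_symm h0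
    have hz0 : χ.symm 0 = z := by rw [← hχ.zero]; exact χ.left_inv hχ.src
    have h2 : ∀ᶠ x in 𝓝 (0 : V n), χ.symm x ∈ O := by
      apply hc.eventually_mem
      rw [hz0]
      exact hO.mem_nhds hzO
    obtain ⟨ε, hε, h3⟩ := Metric.eventually_nhds_iff.1 h2
    refine ⟨ε, hε, fun y hy hyn => ?_⟩
    have h4 := h3 (y := χ y) (by rw [dist_zero_right]; exact hyn)
    rwa [χ.left_inv hy] at h4
  set κ := min (min (min κ₀ (1 / 16)) (min (κ₀ / C) (1 / (2 * C)))) (κ₁ / 4) with hκ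
  have k0 : 0 < κ := by positivity
  have k1 : κ ≤ κ₀ := ((min_le_left _ _).trans (min_le_left _ _)).trans (min_le_left _ _)
  have k2 : κ ≤ 1 / 16 := ((min_le_left _ _).trans (min_le_left _ _)).trans (min_le_right _ _)
  have k3 : κ ≤ κ₀ / C := ((min_le_left _ _).trans (min_le_right _ _)).trans (min_le_left _ _)
  have k4 : κ ≤ 1 / (2 * C) :=
    ((min_le_left _ _).trans (min_le_right _ _)).trans (min_le_right _ _)
  have k5 : κ ≤ κ₁ / 4 := min_le_right _ _
  obtain ⟨z', ρ, m, hz', hz'n, hρ, hρκ, hm, hsrc, hw, hi⟩ := h k hk1 hkr κ k0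
  set v := χ z' with hv
  set w := χ (F^[m] z') - v with hwdef
  have hρk : 0 < ρ ^ k := pow_pos hρ k
  have hρ1 : ρ ≤ 1 := by linarith
  have hρk' : ρ ^ k ≤ ρ := by
    calc ρ ^ k ≤ ρ ^ 1 := pow_le_pow_of_le_one hρ.le hρ1 hk1
      _ = ρ := pow_one ρ
  have hwρ : ‖w‖ ≤ ρ := by
    refine hw.le.trans ?_
    calc κ * ρ ^ k ≤ 1 * ρ ^ k := by gcongr; linarith
      _ = ρ ^ k := one_mul _
      _ ≤ ρ := hρk'
  obtain ⟨u, hu, huw, hu0⟩ := hB ρ hρ (by linarith) _ hwρ
  have hq : ‖w‖ / ρ ^ k ≤ κ := by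
    rw [div_le_iff₀ hρk]; exact hw.le
  have hc1 : C * (‖w‖ / ρ ^ k) ≤ κ₀ := by
    calc C * (‖w‖ / ρ ^ k) ≤ C * (κ₀ / C) :=
          mul_le_mul_of_nonneg_left (hq.trans k3) hC.le
      _ = κ₀ := by field_simp
  have hc2 : C * (‖w‖ / ρ ^ k) ≤ 1 / 2 := by
    calc C * (‖w‖ / ρ ^ k) ≤ C * (1 / (2 * C)) :=
          mul_le_mul_of_nonneg_left (hq.trans k4) hC.le
      _ = 1 / 2 := by field_simp
  have hsh := small_shift (v := v) hu hu0 (by linarith)
  obtain ⟨Θ, hΘ⟩ := Pool.Agent.W428.SC.push n N r χ z hχ (fun x => u (x - v))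
    (small_mono hsh hk1 hc2)
  have hGU := hN 0 (fun x => u (x - v)) Θ (by rw [norm_zero]; exact hκ₀)
    (small_mono hsh le_rfl hc1) hΘ
  have hG : ∀ y, (F.trans Θ) y = Θ (F y) := fun y => rfl
  have hfix : ∀ y, (y ∈ χ.source → 2 * ρ ≤ ‖χ y - v‖) → Θ y = y := by
    intro y hy
    by_cases hys : y ∈ χ.source
    · obtain ⟨a, b⟩ := hΘ.1 _ hys
      have b1 : χ (Θ y) = χ y + u (χ y - v) := b
      rw [hu0 _ (hy hys), add_zero] at b1
      exact χ.injOn a hys b1
    · exact hΘ.2 _ hys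
  refine ⟨F.trans Θ, hGU, z', hO1 z' hz' (by linarith), ⟨m, hm, ?_⟩, ?_⟩
  · have key : ∀ i, i < m → (⇑(F.trans Θ))^[i] z' = F^[i] z' := by
      intro i
      induction i with
      | zero => intro _; rfl
      | succ i ih =>
        intro him
        rw [Function.iterate_succ_apply', ih (by omega), hG, ← Function.iterate_succ_apply' F]
        exact hfix _ (hi (i + 1) (Nat.succ_pos i) him)
    obtain ⟨m', rfl⟩ : ∃ m', m = m' + 1 := ⟨m - 1, by omega⟩
    rw [Function.iterate_succ_apply', key m' (by omega), hG, ← Function.iterate_succ_apply' F]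
    obtain ⟨a, b⟩ := hΘ.1 _ hsrc
    apply χ.injOn a hz'
    have b' : χ (Θ (F^[m' + 1] z')) = χ (F^[m' + 1] z') + u w := b
    rw [b', huw, hwdef]
    abel
  · intro y hy
    rw [hG]
    apply hfix
    intro hys
    by_contra hcon
    push Not at hcon
    apply hy
    apply hO1 _ hys
    have := norm_sub_norm_le (χ (F y)) v
    linarith

theorem lclosable_of_ret {r : ℕ∞} (hr : 1 ≤ r) (F : DiffM n N r)
    {χ : OpenPartialHomeomorph N (V n)} {z : N} (hχ : GoodChart n N χ z) (h : Ret n F χ) :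
    LClosable n N r F z :=
  lclosable_of_retK hr F hχ (fun k _ _ => h k)

end

/-! ### `Ω`-stable diffeomorphisms -/

open Pool.Agent.TH80.OMS in
/-- Points at which an `Ω`-stable diffeomorphism can be closed locally are limits of periodic
points. -/
theorem per_of_lclosable {n : ℕ} {N : Type u} [TopologicalSpace N] [T2Space N] [CompactSpace N]
    [ChartedSpace (V n) N] [IsManifold (𝓡 n) ∞ N] {r : ℕ∞} (hr : 1 ≤ r) {F : DiffM n N r}
    (hF : OmegaStable n N r F) {z : N} (hz : LClosable n N r F z) : z ∈ closure (Per F) := by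
  by_contra hcon
  obtain ⟨U₁, hU₁, hFU₁, hfin⟩ := finite_per hr hF
  obtain ⟨U₀, hU₀, hFU₀, hconj⟩ := hF
  have hU : IsOpen[strongTop n N r] (U₀ ∩ U₁) := @IsOpen.inter _ (strongTop n N r) _ _ hU₀ hU₁
  obtain ⟨G, hG, z', hz', ⟨m, hm, hmz⟩, hsupp⟩ := hz _ hU ⟨hFU₀, hFU₁⟩ (closure (Per F))ᶜ
    isClosed_closure.isOpen_compl hcon
  have hsub : {x | F^[m] x = x} ⊆ {x | G^[m] x = x} := by
    intro x hx
    have hx' : F^[m] x = x := hx
    have hper : ∀ i : ℕ, F^[i] x ∈ Per F := by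
      intro i
      refine ⟨m, hm, ?_⟩
      rw [← Function.iterate_add_apply, add_comm, Function.iterate_add_apply, hx']
    have key : ∀ i : ℕ, G^[i] x = F^[i] x := by
      intro i
      induction i with
      | zero => rfl
      | succ i ih =>
        rw [Function.iterate_succ_apply', ih, Function.iterate_succ_apply']
        apply hsupp
        rw [← Function.iterate_succ_apply' F]
        intro h
        exact h (subset_closure (hper (i + 1)))
    show G^[m] x = x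
    rw [key m, hx']
  have hne : {x | F^[m] x = x} ⊂ {x | G^[m] x = x} := by
    refine ⟨hsub, fun h => ?_⟩
    have h1 : z' ∈ {x | F^[m] x = x} := h hmz
    exact hz' (subset_closure ⟨m, hm, h1⟩)
  have h1 := Set.ncard_lt_ncard hne (hfin G hG.2 m hm)
  have h2 := Pool.Agent.Y504.CO.ncard_conj F.continuous G.continuous (hconj G hG.1) hm
  omega

end Pool.Agent.R773.FC
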