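import Pool.Agent.H66.L.S8.R773.FC.Lin
import Pool.Agent.H66.L.S8.Helper133.Brouwer

/-!
# Skew products with torus fibres whose fibre maps are homotopic to a hyperbolic automorphism
-/

set_option autoImplicit false
set_option linter.unusedSectionVars false

open Set Filter Topology Function

namespace Pool.Agent.R773.FC

open Pool.Agent.H922R3.CL (IsHypLin)

variable {W : Type} [NormedAddCommGroup W] [NormedSpace ℝ W] {Λ : AddSubgroup W}

/-- The automorphism of `W / Λ` induced by `A`. -/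
def bar (A : W ≃L[ℝ] W) (hA : ∀ u, u ∈ Λ ↔ A u ∈ Λ) : (W ⧸ Λ) ≃ₜ (W ⧸ Λ) where
  toFun := QuotientAddGroup.map Λ Λ (A.toLinearEquiv.toAddEquiv : W →+ W)
    (fun u hu => (hA u).1 hu)
  invFun := QuotientAddGroup.map Λ Λ (A.symm.toLinearEquiv.toAddEquiv : W →+ W)
    (fun u hu => (hA (A.symm u)).2 (by rw [A.apply_symm_apply]; exact hu))
  left_inv := by
    intro x
    obtain ⟨z, rfl⟩ := QuotientAddGroup.mk_surjective x
    show (QuotientAddGroup.mk (A.symm (A z)) : W ⧸ Λ) = _
    rw [A.symm_apply_apply]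
  right_inv := by
    intro x
    obtain ⟨z, rfl⟩ := QuotientAddGroup.mk_surjective x
    show (QuotientAddGroup.mk (A (A.symm z)) : W ⧸ Λ) = _
    rw [A.apply_symm_apply]
  continuous_toFun := by
    apply (QuotientAddGroup.isQuotientMap_mk Λ).continuous_iff.2
    exact QuotientAddGroup.continuous_mk.comp A.continuous
  continuous_invFun := by
    apply (QuotientAddGroup.isQuotientMap_mk Λ).continuous_iff.2
    exact QuotientAddGroup.continuous_mk.comp A.symm.continuous

theorem bar_mk (A : W ≃L[ℝ] W) (hA : ∀ u, u ∈ Λ ↔ A u ∈ Λ) (z : W) :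
    bar A hA (QuotientAddGroup.mk z) = QuotientAddGroup.mk (A z) := rfl

theorem bar_iter (A : W ≃L[ℝ] W) (hA : ∀ u, u ∈ Λ ↔ A u ∈ Λ) (i : ℕ) (z : W) :
    (bar A hA)^[i] (QuotientAddGroup.mk z) = QuotientAddGroup.mk (A^[i] z) := by
  induction i with
  | zero => rfl
  | succ i ih => rw [iterate_succ_apply', ih, bar_mk, iterate_succ_apply']

/-- `T (b, y) = (f b, A y + φ (b, y))`. -/
def Skew {B : Type*} (A : W ≃L[ℝ] W) (Λ : AddSubgroup W) (f : B → B) (φ : B × (W ⧸ Λ) → W)
    (T : B × (W ⧸ Λ) → B × (W ⧸ Λ)) : Prop :=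
  ∀ (b : B) (z : W), T (b, QuotientAddGroup.mk z) =
    (f b, QuotientAddGroup.mk (A z + φ (b, QuotientAddGroup.mk z)))

variable {B : Type*} [TopologicalSpace B] {A : W ≃L[ℝ] W} {f : B → B} {φ ψ : B × (W ⧸ Λ) → W}
  {T : B × (W ⧸ Λ) → B × (W ⧸ Λ)}

theorem skew_iter (hT : Skew A Λ f φ T) (hψ : ∀ p, ψ (T p) + φ p = A (ψ p)) (i : ℕ) (b : B)
    (z : W) : T^[i] (b, QuotientAddGroup.mk z) = (f^[i] b, QuotientAddGroup.mk
      (A^[i] (z + ψ (b, QuotientAddGroup.mk z)) - ψ (T^[i] (b, QuotientAddGroup.mk z)))) := by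
  induction i with
  | zero =>
    simp only [iterate_zero, id]
    rw [add_sub_cancel_right]
  | succ i ih =>
    set w := z + ψ (b, QuotientAddGroup.mk z) with hw
    set p := T^[i] (b, QuotientAddGroup.mk z) with hp
    have h1 : T^[i + 1] (b, QuotientAddGroup.mk z) = T p := by
      rw [iterate_succ_apply']
    have h2 := hT (f^[i] b) (A^[i] w - ψ p)
    rw [← ih] at h2
    rw [h1, h2]
    rw [iterate_succ_apply', Prod.mk.injEq]
    refine ⟨rfl, ?_⟩
    rw [iterate_succ_apply', ← h2]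
    congr 1
    rw [map_sub, ← hψ p]
    abel

/-- The semiconjugacy. -/
theorem semi_iter (hT : Skew A Λ f φ T) (hψ : ∀ p, ψ (T p) + φ p = A (ψ p)) (i : ℕ) (b : B)
    (z : W) : (T^[i] (b, QuotientAddGroup.mk z)).2 +
      QuotientAddGroup.mk (ψ (T^[i] (b, QuotientAddGroup.mk z))) =
      (QuotientAddGroup.mk (A^[i] (z + ψ (b, QuotientAddGroup.mk z))) : W ⧸ Λ) := by
  have h := skew_iter hT hψ i b z
  have h2 := congrArg Prod.snd h
  rw [h2, ← QuotientAddGroup.mk_add, sub_add_cancel]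

theorem fst_iter (hT : Skew A Λ f φ T) (i : ℕ) (b : B) (y : W ⧸ Λ) :
    (T^[i] (b, y)).1 = f^[i] b := by
  induction i with
  | zero => rfl
  | succ i ih =>
    rw [iterate_succ_apply', iterate_succ_apply']
    obtain ⟨z, hz⟩ := QuotientAddGroup.mk_surjective (T^[i] (b, y)).2
    have h1 : T^[i] (b, y) = (f^[i] b, QuotientAddGroup.mk z) := by
      rw [hz, ← ih]
    rw [h1, hT]

theorem iter_add' (L : W ≃L[ℝ] W) (n : ℕ) (v w : W) : L^[n] (v + w) = L^[n] v + L^[n] w := by
  induction n with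
  | zero => rfl
  | succ n ih => rw [iterate_succ_apply', ih, map_add, iterate_succ_apply', iterate_succ_apply']

theorem iter_smul' (L : W ≃L[ℝ] W) (n : ℕ) (c : ℝ) (v : W) : L^[n] (c • v) = c • L^[n] v := by
  induction n with
  | zero => rfl
  | succ n ih => rw [iterate_succ_apply', ih, map_smul, iterate_succ_apply']

/-- Periodic points of the semiconjugate system lift: the Brouwer argument. -/
theorem exists_lift [FiniteDimensional ℝ W] [CompactSpace (W ⧸ Λ)] (hL : IsHypLin A)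
    (hTc : Continuous T) (hψc : Continuous ψ) (hT : Skew A Λ f φ T)
    (hψ : ∀ p, ψ (T p) + φ p = A (ψ p)) (b : B) {m : ℕ} (hm : 1 ≤ m) (u' l : W)
    (hl : A^[m] u' = u' + l) (hlΛ : l ∈ Λ) :
    ∃ z : W, T^[m] (b, QuotientAddGroup.mk z) = (f^[m] b, QuotientAddGroup.mk z) ∧
      A^[m] (z + ψ (b, QuotientAddGroup.mk z)) = z + l + ψ (f^[m] b, QuotientAddGroup.mk z) := by
  -- `A ^ m - 1` as a linear equivalence
  let D0 : W →ₗ[ℝ] W :=
    { toFun := fun v => A^[m] v - v
      map_add' := fun v w => by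
        show A^[m] (v + w) - (v + w) = _
        rw [iter_add']
        abel
      map_smul' := fun c v => by
        show A^[m] (c • v) - c • v = _
        rw [iter_smul', RingHom.id_apply, smul_sub] }
  have hD0 : ∀ v, D0 v = A^[m] v - v := fun v => rfl
  have hinj : Injective D0 := by
    rw [← LinearMap.ker_eq_bot, LinearMap.ker_eq_bot']
    intro v hv
    rw [hD0, sub_eq_zero] at hv
    exact fix_zero hL hm hv
  let D := LinearEquiv.ofInjectiveEndo D0 hinj
  have hD : ∀ x, A^[m] (D.symm x) - D.symm x = x := by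
    intro x
    have h1 : D (D.symm x) = x := D.apply_symm_apply x
    exact h1
  have hDc : Continuous D.symm := D.symm.toLinearMap.continuous_of_finiteDimensional
  let G : (W ⧸ Λ) → W := fun y => D.symm (l + ψ (T^[m] (b, y)) - A^[m] (ψ (b, y)))
  have hG : Continuous G := by
    apply hDc.comp
    apply Continuous.sub
    · apply continuous_const.add
      exact hψc.comp ((hTc.iterate m).comp (Continuous.prodMk_right b))
    · exact (A.continuous.iterate m).comp (hψc.comp (Continuous.prodMk_right b))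
  obtain ⟨M, -, hM⟩ := exists_bd hG
  obtain ⟨z, hz⟩ := Pool.Agent.Helper133.Brouwer.brouwer
    (fun z : W => G (QuotientAddGroup.mk z)) (hG.comp QuotientAddGroup.continuous_mk) M
    (fun z => hM _)
  have h1 : A^[m] z - z = l + ψ (T^[m] (b, QuotientAddGroup.mk z)) -
      A^[m] (ψ (b, QuotientAddGroup.mk z)) := by
    have := hD (l + ψ (T^[m] (b, QuotientAddGroup.mk z)) - A^[m] (ψ (b, QuotientAddGroup.mk z)))
    have hz' : D.symm (l + ψ (T^[m] (b, QuotientAddGroup.mk z)) -
      A^[m] (ψ (b, QuotientAddGroup.mk z))) = z := hz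
    rwa [hz'] at this
  have h2 : A^[m] (z + ψ (b, QuotientAddGroup.mk z)) - ψ (T^[m] (b, QuotientAddGroup.mk z)) =
      z + l := by
    rw [iter_add']
    rw [sub_eq_iff_eq_add] at h1
    rw [h1]
    abel
  have h3 : T^[m] (b, QuotientAddGroup.mk z) = (f^[m] b, QuotientAddGroup.mk z) := by
    rw [skew_iter hT hψ m b z, h2, QuotientAddGroup.mk_add,
      (QuotientAddGroup.eq_zero_iff l).2 hlΛ, add_zero]
  refine ⟨z, h3, ?_⟩
  rw [sub_eq_iff_eq_add, h3] at h2
  exact h2

/-- The shadowing estimate. -/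
theorem exists_lift' [FiniteDimensional ℝ W] [CompactSpace (W ⧸ Λ)] (hL : IsHypLin A)
    (hTc : Continuous T) (hψc : Continuous ψ) (hT : Skew A Λ f φ T)
    (hψ : ∀ p, ψ (T p) + φ p = A (ψ p)) : ∃ K > 0, ∀ (b : B) (m : ℕ), 1 ≤ m → ∀ u' : W,
    A^[m] u' - u' ∈ Λ → ∃ z : W,
      T^[m] (b, QuotientAddGroup.mk z) = (f^[m] b, QuotientAddGroup.mk z) ∧
      ∀ j < m, ‖A^[j] (z + ψ (b, QuotientAddGroup.mk z)) - A^[j] u'‖ ≤
        K * ‖ψ (f^[m] b, QuotientAddGroup.mk z) - ψ (b, QuotientAddGroup.mk z)‖ := by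
  obtain ⟨K, hK, hsh⟩ := Pool.Agent.H922R3.CL.shadow_lin hL
  refine ⟨K, hK, fun b m hm u' hu' => ?_⟩
  set l := A^[m] u' - u' with hl
  obtain ⟨z, hz1, hz2⟩ := exists_lift hL hTc hψc hT hψ b hm u' l (by rw [hl]; abel) hu'
  refine ⟨z, hz1, ?_⟩
  set w := z + ψ (b, QuotientAddGroup.mk z) with hw
  set δ := ‖ψ (f^[m] b, QuotientAddGroup.mk z) - ψ (b, QuotientAddGroup.mk z)‖ with hδ
  obtain ⟨p, hp1, hp2⟩ := hsh δ m (fun j => if j < m then A^[j] w else w + l) hm (by
    intro j hj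
    simp only [if_pos hj]
    by_cases h1 : j + 1 < m
    · rw [if_pos h1, iterate_succ_apply', sub_self, norm_zero]
      exact norm_nonneg _
    · rw [if_neg h1]
      have h2 : m = j + 1 := by omega
      rw [← iterate_succ_apply' (⇑A), Nat.succ_eq_add_one, ← h2, hz2, hδ, hw]
      apply le_of_eq
      congr 1
      abel)
  have hpu : p = u' := by
    rw [← sub_eq_zero]
    apply fix_zero hL hm
    rw [iter_sub, hp1]
    simp only [lt_irrefl, if_false, if_pos (by omega : 0 < m), iterate_zero, id]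
    rw [add_sub_cancel_left, hl]
    abel
  intro j hj
  have h1 := hp2 j hj.le
  simp only [if_pos hj] at h1
  rw [← hpu, norm_sub_rev]
  exact h1

end Pool.Agent.R773.FC
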